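import Mathlib

namespace Pool.Agent.Results.MP_a5fab4_co.Counter

/-- The independent domination number: least size of a maximal independent set. -/
noncomputable def iNum {n : ℕ} (G : SimpleGraph (Fin n)) : ℕ :=
  sInf {k | ∃ S : Finset (Fin n),
    Maximal (fun T : Finset (Fin n) => G.IsIndepSet (T : Set (Fin n))) S ∧ S.card = k}

/-- The least size of a maximal clique. -/
noncomputable def muNum {n : ℕ} (G : SimpleGraph (Fin n)) : ℕ :=
  sInf {k | ∃ S : Finset (Fin n),
    Maximal (fun T : Finset (Fin n) => G.IsClique (T : Set (Fin n))) S ∧ S.card = k}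

/-- Orders `n` such that every graph of order `n` has `i ≤ l` or `mu ≤ m`;
the lower Ramsey number is the greatest element of this set. -/
def goodOrders (l m : ℕ) : Set ℕ :=
  {n | ∀ G : SimpleGraph (Fin n), iNum G ≤ l ∨ muNum G ≤ m}

def adjB (u v : Fin 25) : Bool :=
  u != v &&
    ((10 ≤ u.val && 10 ≤ v.val) ||
     (u.val < 10 && 10 ≤ v.val && 2 ≤ (u.val + 25 - v.val) % 5) ||
     (v.val < 10 && 10 ≤ u.val && 2 ≤ (v.val + 25 - u.val) % 5))

lemma adjB_symm : ∀ u v, adjB u v = adjB v u := by decide +kernel
lemma adjB_irr : ∀ u, adjB u u = false := by decide +kernel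

def G0 : SimpleGraph (Fin 25) where
  Adj u v := adjB u v = true
  symm := ⟨fun u v h => by rw [adjB_symm]; exact h⟩
  loopless := ⟨fun u h => by simp [adjB_irr] at h⟩

instance : DecidableRel G0.Adj := fun u v => inferInstanceAs (Decidable (adjB u v = true))

def nonN (x : Fin 25) : Finset (Fin 25) := Finset.univ.filter fun y => adjB x y = false
def clN (x : Fin 25) : Finset (Fin 25) := Finset.univ.filter fun y => y = x ∨ adjB x y = true
def setA : Finset (Fin 25) := Finset.univ.filter fun y => y.val < 10
def setI : Finset (Fin 25) := Finset.univ.filter fun y => 10 ≤ y.val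

lemma nonN_card : ∀ x : Fin 25, 10 ≤ x.val → (nonN x).card = 5 := by decide +kernel
lemma clN_card : ∀ x : Fin 25, x.val < 10 → (clN x).card = 10 := by decide +kernel
lemma setA_card : setA.card = 10 := by decide +kernel
lemma setI_card : setI.card = 15 := by decide +kernel
lemma nonN_ind : ∀ x : Fin 25, 10 ≤ x.val → ∀ y z, adjB x y = false → adjB x z = false →
    adjB y z = false := by decide +kernel
lemma clN_cl : ∀ x : Fin 25, x.val < 10 → ∀ y z, (y = x ∨ adjB x y = true) →
    (z = x ∨ adjB x z = true) → y ≠ z → adjB y z = true := by decide +kernel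
lemma A_ind : ∀ y z : Fin 25, y.val < 10 → z.val < 10 → adjB y z = false := by decide +kernel
lemma I_cl : ∀ y z : Fin 25, 10 ≤ y.val → 10 ≤ z.val → y ≠ z → adjB y z = true := by
  decide +kernel

lemma ind_big (S : Finset (Fin 25))
    (h : Maximal (fun T : Finset (Fin 25) => G0.IsIndepSet (T : Set (Fin 25))) S) :
    5 ≤ S.card := by
  by_cases hx : ∃ x ∈ S, 10 ≤ x.val
  · obtain ⟨x, hxS, hx⟩ := hx
    have hsub : S ⊆ nonN x := by
      intro y hy
      simp only [nonN, Finset.mem_filter, Finset.mem_univ, true_and]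
      by_cases hxy : x = y
      · subst hxy; exact adjB_irr x
      · have := h.prop (Finset.mem_coe.2 hxS) (Finset.mem_coe.2 hy) hxy
        simpa [G0] using this
    have hind : G0.IsIndepSet ((nonN x : Finset (Fin 25)) : Set (Fin 25)) := by
      intro y hy z hz _
      simp only [nonN, Finset.coe_filter, Finset.mem_univ, true_and, Set.mem_ofPred_eq] at hy hz
      have := nonN_ind x hx y z hy hz
      simp [G0, this]
    have := Finset.card_le_card (h.le_of_ge hind hsub)
    rw [nonN_card x hx] at this
    exact this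
  · push Not at hx
    have hsub : S ⊆ setA := by
      intro y hy
      simp only [setA, Finset.mem_filter, Finset.mem_univ, true_and]
      exact hx y hy
    have hind : G0.IsIndepSet ((setA : Finset (Fin 25)) : Set (Fin 25)) := by
      intro y hy z hz _
      simp only [setA, Finset.coe_filter, Finset.mem_univ, true_and, Set.mem_ofPred_eq] at hy hz
      have := A_ind y z hy hz
      simp [G0, this]
    have := Finset.card_le_card (h.le_of_ge hind hsub)
    rw [setA_card] at this
    omega

lemma cl_big (S : Finset (Fin 25))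
    (h : Maximal (fun T : Finset (Fin 25) => G0.IsClique (T : Set (Fin 25))) S) :
    10 ≤ S.card := by
  by_cases hx : ∃ x ∈ S, x.val < 10
  · obtain ⟨x, hxS, hx⟩ := hx
    have hsub : S ⊆ clN x := by
      intro y hy
      simp only [clN, Finset.mem_filter, Finset.mem_univ, true_and]
      by_cases hxy : x = y
      · exact Or.inl hxy.symm
      · exact Or.inr (h.prop (Finset.mem_coe.2 hxS) (Finset.mem_coe.2 hy) hxy)
    have hcl : G0.IsClique ((clN x : Finset (Fin 25)) : Set (Fin 25)) := by
      intro y hy z hz hyz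
      simp only [clN, Finset.coe_filter, Finset.mem_univ, true_and, Set.mem_ofPred_eq] at hy hz
      exact clN_cl x hx y z hy hz hyz
    have := Finset.card_le_card (h.le_of_ge hcl hsub)
    rw [clN_card x hx] at this
    exact this
  · push Not at hx
    have hsub : S ⊆ setI := by
      intro y hy
      simp only [setI, Finset.mem_filter, Finset.mem_univ, true_and]
      exact hx y hy
    have hcl : G0.IsClique ((setI : Finset (Fin 25)) : Set (Fin 25)) := by
      intro y hy z hz hyz
      simp only [setI, Finset.coe_filter, Finset.mem_univ, true_and, Set.mem_ofPred_eq] at hy hz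
      exact I_cl y z hy hz hyz
    have := Finset.card_le_card (h.le_of_ge hcl hsub)
    rw [setI_card] at this
    omega

lemma exists_max (P : Finset (Fin 25) → Prop) (h0 : P ∅) : ∃ S, Maximal P S := by
  obtain ⟨S, hS⟩ := Finite.exists_le_maximal h0
  exact ⟨S, hS.2⟩

lemma iNum_G0 : 5 ≤ iNum G0 := by
  unfold iNum
  obtain ⟨S, hS⟩ := exists_max
    (fun T : Finset (Fin 25) => G0.IsIndepSet (T : Set (Fin 25))) (by simp)
  refine le_csInf ⟨S.card, S, hS, rfl⟩ ?_
  rintro k ⟨T, hT, rfl⟩
  exact ind_big T hT

lemma muNum_G0 : 10 ≤ muNum G0 := by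
  unfold muNum
  obtain ⟨S, hS⟩ := exists_max
    (fun T : Finset (Fin 25) => G0.IsClique (T : Set (Fin 25))) (by simp)
  refine le_csInf ⟨S.card, S, hS, rfl⟩ ?_
  rintro k ⟨T, hT, rfl⟩
  exact cl_big T hT

theorem result : ¬ ∀ l m : ℕ, 0 < l → 0 < m → m / 2 ≤ l → l ≤ m →
    IsGreatest (goodOrders l m) (2 * (l + m) - 1) := by
  intro h
  have h1 := (h 4 9 (by norm_num) (by norm_num) (by norm_num) (by norm_num)).1
  have h2 : iNum G0 ≤ 4 ∨ muNum G0 ≤ 9 := h1 G0
  have := iNum_G0
  have := muNum_G0
  omega

end Pool.Agent.Results.MP_a5fab4_co.Counter
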